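import Pool.Agent.H86.AD.ChainA

/-! Discrete step lemma and continuity: good assignments are hard (module F of the annealing
board). -/

namespace Pool.Agent.H73.AD

open Finset Matrix Pool.Agent.H73.QA

set_option linter.unusedSectionVars false
set_option linter.deprecated false

section entry
variable {X : Type} [Fintype X] [DecidableEq X]

/-- sum of the absolute values of the entries -/
noncomputable def esum (M : Matrix X X ℂ) : ℝ := ∑ i, ∑ j, ‖M i j‖

theorem esum_nonneg (M : Matrix X X ℂ) : 0 ≤ esum M :=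
  sum_nonneg fun _ _ => sum_nonneg fun _ _ => norm_nonneg _

theorem norm_le_sum (v : EuclideanSpace ℂ X) : ‖v‖ ≤ ∑ i, ‖v i‖ := by
  refine le_of_sq_le_sq ?_ (sum_nonneg fun _ _ => norm_nonneg _)
  rw [EuclideanSpace.norm_sq_eq, sq, sum_mul_sum]
  refine sum_le_sum fun i _ => ?_
  rw [sq]
  exact single_le_sum (f := fun j => ‖v i‖ * ‖v j‖) (fun j _ => by positivity) (mem_univ i)

theorem norm_coord_le (v : EuclideanSpace ℂ X) (i : X) : ‖v i‖ ≤ ‖v‖ := by
  refine le_of_sq_le_sq ?_ (norm_nonneg _)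
  rw [EuclideanSpace.norm_sq_eq]
  exact single_le_sum (f := fun j => ‖v j‖ ^ 2) (fun j _ => by positivity) (mem_univ i)

theorem norm_lin_le_esum (M : Matrix X X ℂ) (v : EuclideanSpace ℂ X) :
    ‖toEuclideanLin M v‖ ≤ esum M * ‖v‖ := by
  refine (norm_le_sum _).trans ?_
  unfold esum
  rw [sum_mul]
  refine sum_le_sum fun i _ => ?_
  rw [sum_mul]
  have h1 : toEuclideanLin M v i = ∑ j, M i j * v j := rfl
  rw [h1]
  refine (norm_sum_le _ _).trans (sum_le_sum fun j _ => ?_)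
  rw [norm_mul]
  exact mul_le_mul_of_nonneg_left (norm_coord_le v j) (norm_nonneg _)

theorem continuous_esum : Continuous (esum : Matrix X X ℂ → ℝ) := by
  unfold esum
  fun_prop

end entry

section chainB
variable {n k m p q : ℕ} {Y : Type} [Fintype Y] [DecidableEq Y]
    {α κ Λ t u ε δ ν g : ℝ} {G : Fin m → Clause n k} {D : Fin p → Op n Y}
    {h : Fin p → Fin m → Op n Y} {T : Fin q → Op n Y} {z : Cube n}

theorem continuous_ham {S : Type} [TopologicalSpace S] (G : Fin m → Clause n k)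
    (D : Fin p → Op n Y) (h : Fin p → Fin m → Op n Y) (z : Cube n) {a : S → Fin p → ℝ} {b : S → ℝ}
    (ha : Continuous a) (hb : Continuous b) :
    Continuous fun s => ham G z (driver G D h z (a s)) (b s) := by
  unfold ham driver
  refine Continuous.add (Continuous.smul (Complex.continuous_ofReal.comp hb) ?_) ?_
  · refine continuous_finset_sum _ fun i _ => ?_
    have h1 : Continuous fun s => (a s i : ℂ) :=
      Complex.continuous_ofReal.comp ((continuous_apply i).comp ha)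
    exact h1.smul continuous_const
  · refine Continuous.matrix_diagonal ?_
    refine continuous_pi fun x => Complex.continuous_ofReal.comp ?_
    exact (continuous_const.sub hb).mul continuous_const

/-- all nodes of a continuous path have the same type -/
theorem typeI_path (hκ : 0 < κ) (hκ1 : κ ≤ 1) (hε0 : 0 ≤ ε) (hε : ε ≤ κ / 40) (hν0 : 0 ≤ ν)
    (hν : ν ≤ 1 / 20) (hm : 0 < m) (hG : Typ ε δ ν G) (hg : (2 : ℝ) ^ (-u * n) < g) (hg1 : g ≤ 1)
    (hz : GoodZ α κ Λ δ (κ * (2 : ℝ) ^ (-u * n) / 400) G D h T z) (hT : ∀ j, Bdd (T j) 1)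
    {a : ℝ → Fin p → ℝ} {b E : ℝ → ℝ} {ψ : ℝ → Cube n × Y → ℂ}
    (ha : ContinuousOn a (Set.Icc 0 1)) (hb : ContinuousOn b (Set.Icc 0 1))
    (hE : ContinuousOn E (Set.Icc 0 1))
    (hn : ∀ s ∈ Set.Icc (0 : ℝ) 1, Node α κ Λ g G D h z (a s) (b s) (E s) (ψ s))
    (h0 : TypeI κ δ g G D h z (a 0) (b 0) (E 0)) {s : ℝ} (hs : s ∈ Set.Icc (0 : ℝ) 1) :
    TypeI κ δ g G D h z (a s) (b s) (E s) := by
  obtain ⟨τ, hτ⟩ : ∃ τ : ℝ, τ = (2 : ℝ) ^ (-u * n) := ⟨_, rfl⟩
  have hτ0 : 0 < τ := by rw [hτ]; positivity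
  have hg0 : 0 < g := by rw [← hτ] at hg; exact hτ0.trans hg
  have ha' : Continuous fun s : Set.Icc (0 : ℝ) 1 => a s := ha.restrict
  have hb' : Continuous fun s : Set.Icc (0 : ℝ) 1 => b s := hb.restrict
  have hE' : Continuous fun s : Set.Icc (0 : ℝ) 1 => E s := hE.restrict
  have hH := continuous_ham G D h z ha' hb'
  have hr : τ / g < 1 := by
    rw [div_lt_one hg0, hτ]
    exact hg
  have hr0 : 0 < τ / g := div_pos hτ0 hg0
  -- a step size
  obtain ⟨ε1, hε1, hε2⟩ : ∃ ε1 : ℝ, 0 < ε1 ∧ (τ / g) ^ 2 < 1 - (2 * ε1 / g) ^ 2 := by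
    refine ⟨g / 2 * (1 - τ / g), mul_pos (by positivity) (by linarith), ?_⟩
    have h1 : 2 * (g / 2 * (1 - τ / g)) / g = 1 - τ / g := by
      field_simp
    rw [h1]
    nlinarith
  have hloc : IsLocallyConstant fun s : Set.Icc (0 : ℝ) 1 =>
      TypeI κ δ g G D h z (a s) (b s) (E s) := by
    rw [IsLocallyConstant.iff_eventually_eq]
    intro s0
    have h1 : ∀ᶠ s : Set.Icc (0 : ℝ) 1 in nhds s0,
        esum (ham G z (driver G D h z (a s)) (b s) - ham G z (driver G D h z (a s0)) (b s0)) <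
          ε1 := by
      have h2 : Continuous fun s : Set.Icc (0 : ℝ) 1 =>
          esum (ham G z (driver G D h z (a s)) (b s) -
            ham G z (driver G D h z (a s0)) (b s0)) :=
        continuous_esum.comp (hH.sub continuous_const)
      have h3 := h2.tendsto s0
      rw [sub_self] at h3
      have h4 : esum (0 : Op n Y) = 0 := by
        unfold esum
        simp
      rw [h4] at h3
      exact h3.eventually (gt_mem_nhds hε1)
    have h2 : ∀ᶠ s : Set.Icc (0 : ℝ) 1 in nhds s0, |E s - E s0| < ε1 := by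
      have h3 : Continuous fun s : Set.Icc (0 : ℝ) 1 => |E s - E s0| :=
        (hE'.sub continuous_const).abs
      have h4 := h3.tendsto s0
      rw [sub_self, abs_zero] at h4
      exact h4.eventually (gt_mem_nhds hε1)
    filter_upwards [h1, h2] with s hs1 hs2
    have hn0 := hn s0 s0.2
    have hns := hn s s.2
    obtain ⟨k1, k2, k3⟩ := node_hilbert hn0
    obtain ⟨l1, l2, -⟩ := node_hilbert hns
    have h5 := overlap_near hg0 k1 l1 k2 l2 k3 (ε := ε1) (by
      rw [← LinearMap.sub_apply, ← map_sub]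
      refine (norm_lin_le_esum _ _).trans ?_
      rw [l1, mul_one]
      exact hs1.le) hs2.le
    have h6 : τ / g < ‖inner ℂ (WithLp.toLp 2 (ψ s0) : Sp n Y) (WithLp.toLp 2 (ψ s))‖ := by
      by_contra h7
      push Not at h7
      have h8 := pow_le_pow_left₀ (norm_nonneg _) h7 2
      linarith
    have h7 : τ / g < ‖inner ℂ (WithLp.toLp 2 (ψ s) : Sp n Y) (WithLp.toLp 2 (ψ s0))‖ := by
      rwa [norm_inner_symm]
    rw [inner_toLp', hτ] at h6 h7
    refine propext ⟨fun h8 => ?_, fun h8 => ?_⟩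
    · exact typeI_step hκ hκ1 hε0 hε hν0 hν hm hG hg hg1 hz hT hns h8 hn0 (Or.inl h6)
    · exact typeI_step hκ hκ1 hε0 hε hν0 hν hm hG hg hg1 hz hT hn0 h8 hns (Or.inl h7)
  have h1 := hloc.apply_eq_of_preconnectedSpace (⟨0, by simp⟩ : Set.Icc (0 : ℝ) 1) ⟨s, hs⟩
  simp only at h1
  rw [← h1]
  exact h0

theorem hard_of_good (hκ : 0 < κ) (hκ1 : κ ≤ 1) (hε0 : 0 ≤ ε) (hε : ε ≤ κ / 40)
    (hν0 : 0 ≤ ν) (hν : ν ≤ 1 / 20) (ht : ε + ν < t) (hm : 0 < m) {G : Fin m → Clause n k}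
    (hG : Typ ε δ ν G) (D : Fin p → Op n Y) (h : Fin p → Fin m → Op n Y)
    (_hD : ∀ i, Bdd (D i + ∑ j, h i j) 1) (_hh : ∀ i j, Bdd (h i j) (Real.sqrt (2 ^ k) / m))
    (T : Fin q → Op n Y) (hT : ∀ j, Bdd (T j) 1) (z : Cube n)
    (hz : GoodZ α κ Λ δ (κ * (2 : ℝ) ^ (-u * n) / 400) G D h T z) :
    Hard α κ Λ t u G D h T z := by
  intro g l a b E ψ hg hg1 hb0 hpath hjump
  have hτ0 : (0 : ℝ) < (2 : ℝ) ^ (-u * n) := by positivity
  have hg0 : 0 < g := hτ0.trans hg
  have hnode : ∀ i ≤ l, ∀ s ∈ Set.Icc (0 : ℝ) 1,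
      Node α κ Λ g G D h z (a i s) (b i s) (E i s) (ψ i s) := by
    intro i hi s hs
    obtain ⟨h1, h2, h3, h4, h5⟩ := (hpath i hi).2.2.2 s hs
    exact ⟨h1, h2, h3, h4, h5⟩
  have h01 : (0 : ℝ) ∈ Set.Icc (0 : ℝ) 1 := by simp
  have h11 : (1 : ℝ) ∈ Set.Icc (0 : ℝ) 1 := by simp
  have hall : ∀ i ≤ l, ∀ s ∈ Set.Icc (0 : ℝ) 1, TypeI κ δ g G D h z (a i s) (b i s) (E i s) := by
    intro i
    induction i with
    | zero =>
      intro hi s hs
      have h1 := hpath 0 hi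
      refine typeI_path hκ hκ1 hε0 hε hν0 hν hm hG hg hg1 hz hT h1.1 h1.2.1 h1.2.2.1
        (hnode 0 hi) ?_ hs
      have h2 := hnode 0 hi 0 h01
      rw [hb0] at h2 ⊢
      exact typeI_start hκ hg0 h2
    | succ i ih =>
      intro hi s hs
      have h1 := hpath (i + 1) hi
      refine typeI_path hκ hκ1 hε0 hε hν0 hν hm hG hg hg1 hz hT h1.1 h1.2.1 h1.2.2.1
        (hnode (i + 1) hi) ?_ hs
      have hi' : i ≤ l := by omega
      exact typeI_step hκ hκ1 hε0 hε hν0 hν hm hG hg hg1 hz hT (hnode i hi' 1 h11)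
        (ih hi' 1 h11) (hnode (i + 1) hi 0 h01) (hjump i (by omega))
  obtain ⟨h1, h2⟩ := typeI_out hκ hκ1 hε0 hε hν0 hν hm hG hg hg1 hz (hnode l le_rfl 1 h11)
    (hall l le_rfl 1 h11)
  refine ⟨h1, ?_⟩
  intro L hL
  refine le_trans ?_ h2
  rw [← Real.sqrt_sq (norm_nonneg (nearP (hball δ z) (WithLp.toLp 2 (ψ l 1) : Sp n Y))),
    nearP_sq]
  refine Real.sqrt_le_sqrt (sum_le_sum_of_subset_of_nonneg ?_ fun x _ _ =>
    sum_nonneg fun y _ => sq_nonneg _)
  intro x hx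
  by_contra hxB
  have hm' : (0 : ℝ) < m := by exact_mod_cast hm
  have h3 := hL x hx
  have h4 := (viol_bounds hm hG x).1
  have h5 := wn_bound (z := z) hm hG hxB
  have h6 := pviol_eq G z x
  have h7 : (0 : ℝ) < 2 ^ k / m := by positivity
  have h8 : 2 ^ k / m * (pviol G z x : ℝ) ≤ 1 - t := by
    calc 2 ^ k / m * (pviol G z x : ℝ) ≤ 2 ^ k / m * ((1 - t) * m / 2 ^ k) :=
          mul_le_mul_of_nonneg_left h3 h7.le
      _ = 1 - t := by field_simp
  rw [h6, mul_sub] at h8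
  linarith

end chainB

end Pool.Agent.H73.AD
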