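import Pool.Agent.H73.AD.Two
import Pool.Agent.H73.AD.QOp

/-! Types of the nodes of a schedule (module E of the annealing board). -/

namespace Pool.Agent.H73.AD

open Finset Matrix Pool.Agent.H73.QA

/-- a Hamiltonian of a schedule -/
structure Node {n k m p : ℕ} {Y : Type} [Fintype Y] [DecidableEq Y] (α κ Λ g : ℝ)
    (G : Fin m → Clause n k) (D : Fin p → Op n Y) (h : Fin p → Fin m → Op n Y) (z : Cube n)
    (a : Fin p → ℝ) (b E : ℝ) (ψ : Cube n × Y → ℂ) : Prop where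
  b0 : 0 ≤ b
  b1 : b ≤ 1
  adm : Adm α κ Λ a (driver G D h z a) z
  iso : Iso (ham G z (driver G D h z a) b) g E ψ
  low : Low (ham G z (driver G D h z a) b) κ b E

/-- the flattened Hamiltonian has an eigenvalue near `E` -/
def TypeI {n k m p : ℕ} {Y : Type} [Fintype Y] [DecidableEq Y] (κ δ g : ℝ)
    (G : Fin m → Clause n k) (D : Fin p → Op n Y) (h : Fin p → Fin m → Op n Y) (z : Cube n)
    (a : Fin p → ℝ) (b E : ℝ) : Prop :=
  ∃ (f : ℝ) (φ : Sp n Y), ‖φ‖ = 1 ∧ flatH G δ z (driver G D h z a) b φ = (f : ℂ) • φ ∧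
    |f - E| < κ * g / 80

section bridge
variable {X : Type} [Fintype X]

theorem nsq_eq (v : X → ℂ) : nsq v = ‖(WithLp.toLp 2 v : EuclideanSpace ℂ X)‖ ^ 2 := by
  rw [EuclideanSpace.norm_sq_eq]
  rfl

theorem inner_toLp' (v w : X → ℂ) :
    inner ℂ (WithLp.toLp 2 v : EuclideanSpace ℂ X) (WithLp.toLp 2 w) = star v ⬝ᵥ w := by
  rw [EuclideanSpace.inner_eq_star_dotProduct, dotProduct_comm]

theorem norm_one_of_nsq {v : X → ℂ} (h : nsq v = 1) :
    ‖(WithLp.toLp 2 v : EuclideanSpace ℂ X)‖ = 1 := by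
  rw [nsq_eq] at h
  have h0 := norm_nonneg (WithLp.toLp 2 v : EuclideanSpace ℂ X)
  nlinarith

variable [DecidableEq X]

theorem lin_toLp (A : Matrix X X ℂ) (v : X → ℂ) :
    toEuclideanLin A (WithLp.toLp 2 v) = WithLp.toLp 2 (A *ᵥ v) := rfl

theorem quad_toLp (A : Matrix X X ℂ) (v : X → ℂ) :
    (star v ⬝ᵥ A *ᵥ v).re = (inner ℂ (WithLp.toLp 2 v : EuclideanSpace ℂ X)
      (toEuclideanLin A (WithLp.toLp 2 v))).re := by
  rw [lin_toLp, inner_toLp']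

end bridge

set_option linter.unusedSectionVars false
set_option linter.deprecated false

section chainA
variable {n k m p q : ℕ} {Y : Type} [Fintype Y] [DecidableEq Y]
    {α κ Λ u ε δ ν g : ℝ} {G : Fin m → Clause n k} {D : Fin p → Op n Y}
    {h : Fin p → Fin m → Op n Y} {T : Fin q → Op n Y} {z : Cube n}

theorem ham_lin (G : Fin m → Clause n k) (z : Cube n) (A : Op n Y) (b : ℝ) :
    toEuclideanLin (ham G z A b) = (b : ℂ) • toEuclideanLin A +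
      dg fun x => (((1 - b) * (2 ^ k / m * pviol G z x) : ℝ) : ℂ) := by
  unfold ham
  rw [map_add, map_smul]
  congr 1
  ext v x
  rw [toEuclideanLin_apply]
  simp [mulVec_diagonal]

/-- the diagonal part of the flattened Hamiltonian -/
noncomputable def fdiag (G : Fin m → Clause n k) (δ : ℝ) (z : Cube n) (b : ℝ) (x : Cube n) : ℝ :=
  (1 - b) * (2 ^ k / m * (pviol G z x + if x ∈ hball δ z then (Wn G z x : ℝ) else 0))

theorem flatH_eq (G : Fin m → Clause n k) (δ : ℝ) (z : Cube n) (A : Op n Y) (b : ℝ) :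
    flatH G δ z A b = (b : ℂ) • toEuclideanLin A + dg fun x => ((fdiag G δ z b x : ℝ) : ℂ) := by
  unfold flatH
  rw [ham_lin, add_assoc]
  congr 1
  ext v x
  unfold nearN fdiag
  simp only [LinearMap.add_apply, PiLp.add_apply, dg_apply]
  by_cases hx : x.1 ∈ hball δ z
  · simp only [hx, if_true]
    push_cast
    ring
  · simp only [hx, if_false]
    push_cast
    ring

theorem dg_symm (c : Cube n → ℝ) :
    (dg (Y := Y) fun x => ((c x : ℝ) : ℂ)).IsSymmetric := by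
  intro v w
  simp only [PiLp.inner_apply, dg_apply, RCLike.inner_apply, map_mul, Complex.conj_ofReal]
  exact sum_congr rfl fun x _ => by ring

theorem dg_quad (c : Cube n → ℝ) (v : Sp n Y) :
    (inner ℂ v (dg (fun x => ((c x : ℝ) : ℂ)) v)).re = ∑ x, c x.1 * ‖v x‖ ^ 2 := by
  rw [PiLp.inner_apply, Complex.re_sum]
  refine sum_congr rfl fun x _ => ?_
  rw [dg_apply, RCLike.inner_apply, mul_assoc, Complex.mul_conj, Complex.normSq_eq_norm_sq,
    ← Complex.ofReal_mul, Complex.ofReal_re]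

theorem dg_lower {c : Cube n → ℝ} {a : ℝ} (hc : ∀ x, a ≤ c x) (v : Sp n Y) :
    a * ‖v‖ ^ 2 ≤ (inner ℂ v (dg (fun x => ((c x : ℝ) : ℂ)) v)).re := by
  rw [dg_quad, EuclideanSpace.norm_sq_eq, mul_sum]
  exact sum_le_sum fun x _ => mul_le_mul_of_nonneg_right (hc _) (sq_nonneg _)

theorem dg_upper {c : Cube n → ℝ} {a : ℝ} (hc : ∀ x, c x ≤ a) (v : Sp n Y) :
    (inner ℂ v (dg (fun x => ((c x : ℝ) : ℂ)) v)).re ≤ a * ‖v‖ ^ 2 := by
  rw [dg_quad, EuclideanSpace.norm_sq_eq, mul_sum]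
  exact sum_le_sum fun x _ => mul_le_mul_of_nonneg_right (hc _) (sq_nonneg _)

theorem smul_lin_quad (A : Op n Y) (b : ℝ) (v : Sp n Y) :
    (inner ℂ v (((b : ℂ) • toEuclideanLin A) v)).re =
      b * (star (WithLp.ofLp v) ⬝ᵥ A *ᵥ (WithLp.ofLp v)).re := by
  rw [LinearMap.smul_apply, inner_smul_right, Complex.re_ofReal_mul, quad_toLp]

theorem quad_ham (G : Fin m → Clause n k) (z : Cube n) (A : Op n Y) (b : ℝ)
    (w : Cube n × Y → ℂ) :
    (star w ⬝ᵥ ham G z A b *ᵥ w).re = b * (star w ⬝ᵥ A *ᵥ w).re +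
      ∑ x, (1 - b) * (2 ^ k / m * pviol G z x.1) * ‖w x‖ ^ 2 := by
  rw [quad_toLp, ham_lin, LinearMap.add_apply, inner_add_right, Complex.add_re, smul_lin_quad,
    dg_quad]

theorem ham_symm {A : Op n Y} (hA : A.IsHermitian) (G : Fin m → Clause n k) (z : Cube n)
    (b : ℝ) : (toEuclideanLin (ham G z A b)).IsSymmetric := by
  rw [ham_lin]
  refine LinearMap.IsSymmetric.add ?_ (dg_symm _)
  have h1 : (toEuclideanLin A).IsSymmetric := isHermitian_iff_isSymmetric.1 hA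
  exact h1.smul (by simp)

theorem nearN_eq (G : Fin m → Clause n k) (δ : ℝ) (z : Cube n) (b : ℝ) :
    nearN (Y := Y) G δ z b = dg fun x =>
      (((if x ∈ hball δ z then (1 - b) * (2 ^ k / m * Wn G z x) else 0 : ℝ)) : ℂ) := by
  unfold nearN
  congr 1
  ext x
  split_ifs <;> simp

theorem nearN_symm (G : Fin m → Clause n k) (δ : ℝ) (z : Cube n) (b : ℝ) :
    (nearN (Y := Y) G δ z b).IsSymmetric := by
  rw [nearN_eq]
  exact dg_symm _

theorem flatH_symm {A : Op n Y} (hA : A.IsHermitian) (G : Fin m → Clause n k) (δ : ℝ)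
    (z : Cube n) (b : ℝ) : (flatH G δ z A b).IsSymmetric :=
  (ham_symm hA G z b).add (nearN_symm G δ z b)

theorem viol_bounds (hm : 0 < m) (hG : Typ ε δ ν G) (x : Cube n) :
    1 - ε ≤ 2 ^ k / m * (viol G x : ℝ) ∧ 2 ^ k / m * (viol G x : ℝ) ≤ 1 + ε := by
  have hm' : (0 : ℝ) < m := by exact_mod_cast hm
  have h2 : (0 : ℝ) < 2 ^ k := by positivity
  have h3 : (2 : ℝ) ^ k / m * (m / 2 ^ k) = 1 := by field_simp
  have h4 : (0 : ℝ) ≤ 2 ^ k / m := by positivity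
  have h5 := abs_le.1 (hG.t1 x)
  have h6 := mul_le_mul_of_nonneg_left h5.1 h4
  have h7 := mul_le_mul_of_nonneg_left h5.2 h4
  have h8 : (2 : ℝ) ^ k / m * -(ε * (m / 2 ^ k)) = -ε := by
    rw [show (2 : ℝ) ^ k / m * -(ε * (m / 2 ^ k)) = -ε * (2 ^ k / m * (m / 2 ^ k)) by ring, h3]
    ring
  have h9 : (2 : ℝ) ^ k / m * (ε * (m / 2 ^ k)) = ε := by
    rw [show (2 : ℝ) ^ k / m * (ε * (m / 2 ^ k)) = ε * (2 ^ k / m * (m / 2 ^ k)) by ring, h3]
    ring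
  have h10 : (2 : ℝ) ^ k / m * ((viol G x : ℝ) - m / 2 ^ k) =
      2 ^ k / m * (viol G x : ℝ) - 1 := by
    rw [mul_sub, h3]
  rw [h8, h10] at h6
  rw [h9, h10] at h7
  exact ⟨by linarith, by linarith⟩

theorem wn_bound (hm : 0 < m) (hG : Typ ε δ ν G) {x : Cube n} (hx : x ∉ hball δ z) :
    2 ^ k / m * (Wn G z x : ℝ) ≤ ν := by
  have hm' : (0 : ℝ) < m := by exact_mod_cast hm
  have h2 : (0 : ℝ) < 2 ^ k := by positivity
  have h3 : (2 : ℝ) ^ k / m * (m / 2 ^ k) = 1 := by field_simp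
  have h4 : (0 : ℝ) ≤ 2 ^ k / m := by positivity
  calc 2 ^ k / m * (Wn G z x : ℝ) ≤ 2 ^ k / m * (ν * (m / 2 ^ k)) :=
        mul_le_mul_of_nonneg_left (hG.t2 z x hx) h4
    _ = ν * (2 ^ k / m * (m / 2 ^ k)) := by ring
    _ = ν := by rw [h3, mul_one]

theorem split_bounds (hm : 0 < m) (hG : Typ ε δ ν G) (x : Cube n) :
    2 ^ k / m * (pviol G z x : ℝ) ≤ 1 + ε ∧ 2 ^ k / m * (Wn G z x : ℝ) ≤ 1 + ε := by
  have hm' : (0 : ℝ) < m := by exact_mod_cast hm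
  have h4 : (0 : ℝ) ≤ 2 ^ k / m := by positivity
  have h5 := (viol_bounds hm hG x).2
  have h6 := pviol_eq G z x
  have h7 : (0 : ℝ) ≤ 2 ^ k / m * (pviol G z x : ℝ) := mul_nonneg h4 (Nat.cast_nonneg _)
  have h8 : (0 : ℝ) ≤ 2 ^ k / m * (Wn G z x : ℝ) := mul_nonneg h4 (Nat.cast_nonneg _)
  have h9 : 2 ^ k / m * (pviol G z x : ℝ) + 2 ^ k / m * (Wn G z x : ℝ) =
      2 ^ k / m * (viol G x : ℝ) := by
    rw [h6]
    ring
  exact ⟨by linarith, by linarith⟩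

theorem fdiag_lower (hm : 0 < m) (hG : Typ ε δ ν G) (hν0 : 0 ≤ ν) {b : ℝ} (hb1 : b ≤ 1)
    (x : Cube n) : (1 - b) * (1 - ε - ν) ≤ fdiag G δ z b x := by
  unfold fdiag
  refine mul_le_mul_of_nonneg_left ?_ (by linarith)
  have h5 := (viol_bounds hm hG x).1
  have h6 := pviol_eq G z x
  by_cases hx : x ∈ hball δ z
  · simp only [hx, if_true]
    rw [h6, sub_add_cancel]
    linarith
  · simp only [hx, if_false]
    have h7 := wn_bound hm hG hx
    rw [add_zero, h6, mul_sub]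
    linarith

theorem norm_nearN_le (hm : 0 < m) (hG : Typ ε δ ν G) (hε0 : 0 ≤ ε) {b : ℝ}
    (hb1 : b ≤ 1) (v : Sp n Y) :
    ‖nearN G δ z b v‖ ≤ (1 - b) * (1 + ε) * ‖nearP (hball δ z) v‖ := by
  have hm' : (0 : ℝ) < m := by exact_mod_cast hm
  have h4 : (0 : ℝ) ≤ 2 ^ k / m := by positivity
  have h1 : nearN G δ z b v = dg (fun x => if x ∈ hball δ z then
      (((1 - b) * (2 ^ k / m * Wn G z x) : ℝ) : ℂ) else 0) (nearP (hball δ z) v) := by
    ext x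
    unfold nearN nearP
    simp only [dg_apply]
    by_cases hx : x.1 ∈ hball δ z
    · simp [hx]
    · simp [hx]
  rw [h1]
  refine norm_dg_le (mul_nonneg (by linarith) (by linarith)) (fun x => ?_) _
  by_cases hx : x ∈ hball δ z
  · simp only [hx, if_true]
    have h8 : (0 : ℝ) ≤ 2 ^ k / m * (Wn G z x : ℝ) := mul_nonneg h4 (Nat.cast_nonneg _)
    rw [Complex.norm_real, Real.norm_of_nonneg (mul_nonneg (by linarith) h8)]
    exact mul_le_mul_of_nonneg_left (split_bounds hm hG x).2 (by linarith)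
  · simp only [hx, if_false, norm_zero]
    exact mul_nonneg (by linarith) (by linarith)

theorem eig_re {H : Sp n Y →ₗ[ℂ] Sp n Y} {f : ℝ} {φ : Sp n Y} (hφ : ‖φ‖ = 1)
    (h : H φ = (f : ℂ) • φ) : (inner ℂ φ (H φ)).re = f := by
  rw [h, inner_smul_right, inner_self_eq_norm_sq_to_K, hφ]
  simp

theorem flat_eig_lower (hm : 0 < m) (hG : Typ ε δ ν G) (hν0 : 0 ≤ ν) {A : Op n Y}
    (hA : ∀ v : Cube n × Y → ℂ, 0 ≤ (star v ⬝ᵥ A *ᵥ v).re) {b f : ℝ} (hb0 : 0 ≤ b) (hb1 : b ≤ 1)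
    {φ : Sp n Y} (hφ : ‖φ‖ = 1) (h : flatH G δ z A b φ = (f : ℂ) • φ) :
    (1 - b) * (1 - ε - ν) ≤ f := by
  have h1 := eig_re hφ h
  rw [flatH_eq, LinearMap.add_apply, inner_add_right, Complex.add_re, smul_lin_quad] at h1
  have h2 := dg_lower (fdiag_lower (z := z) hm hG hν0 hb1) φ
  rw [hφ] at h2
  have h3 := mul_nonneg hb0 (hA (WithLp.ofLp φ))
  linarith

/-- the data of a node in the Hilbert space -/
theorem node_hilbert {a : Fin p → ℝ} {b E : ℝ} {ψ : Cube n × Y → ℂ}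
    (hn : Node α κ Λ g G D h z a b E ψ) :
    ‖(WithLp.toLp 2 ψ : Sp n Y)‖ = 1 ∧
    toEuclideanLin (ham G z (driver G D h z a) b) (WithLp.toLp 2 ψ) =
      (E : ℂ) • (WithLp.toLp 2 ψ : Sp n Y) ∧
    ∀ w : Sp n Y, inner ℂ (WithLp.toLp 2 ψ : Sp n Y) w = 0 → g * ‖w‖ ≤
      ‖toEuclideanLin (ham G z (driver G D h z a) b) w - (E : ℂ) • w‖ := by
  obtain ⟨h1, h2, h3⟩ := hn.iso
  refine ⟨norm_one_of_nsq h1, ?_, ?_⟩
  · rw [lin_toLp, h2]
    rfl
  · intro w hw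
    have h4 := h3 (WithLp.ofLp w) (by rw [← inner_toLp']; exact hw)
    rw [nsq_eq, nsq_eq, ← mul_pow] at h4
    exact le_of_sq_le_sq h4 (norm_nonneg _)

theorem node_nonneg (hm : 0 < m) {a : Fin p → ℝ} {b E : ℝ} {ψ : Cube n × Y → ℂ}
    (hn : Node α κ Λ g G D h z a b E ψ) : 0 ≤ E := by
  have hm' : (0 : ℝ) < m := by exact_mod_cast hm
  obtain ⟨h1, h2, -⟩ := node_hilbert hn
  have h3 := eig_re h1 h2
  rw [← quad_toLp, quad_ham] at h3
  rw [← h3]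
  have h4 := mul_nonneg hn.b0 (hn.adm.psd ψ)
  have h5 : 0 ≤ ∑ x, (1 - b) * (2 ^ k / m * pviol G z x.1) * ‖ψ x‖ ^ 2 := by
    refine sum_nonneg fun x _ => ?_
    have := hn.b1
    have h6 : (0 : ℝ) ≤ 1 - b := by linarith
    positivity
  linarith

theorem node_upper (hκ : 0 < κ) (hε0 : 0 ≤ ε) (hε : ε ≤ κ / 40) (hm : 0 < m)
    (hG : Typ ε δ ν G) {a : Fin p → ℝ} {b E : ℝ} {ψ : Cube n × Y → ℂ}
    (hn : Node α κ Λ g G D h z a b E ψ) :
    E ≤ 1 - (1 - κ / 4) * b ∧ (b < 1 / 5 → E ≤ 1 / 2) := by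
  rcases hn.low with h1 | h1
  · -- test vectors
    have hb0 := hn.b0
    have hb1 := hn.b1
    have h2 : E ≤ b := by
      obtain ⟨η, hη1, hη2⟩ := hn.adm.sol
      have h3 := h1 (ket z η)
      rw [quad_ham] at h3
      have h4 : ∑ x, (1 - b) * (2 ^ k / m * pviol G z x.1) * ‖ket z η x‖ ^ 2 = 0 := by
        refine sum_eq_zero fun x _ => ?_
        by_cases hx : x.1 = z
        · have h5 : pviol G z x.1 = 0 := by
            rw [hx]
            unfold pviol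
            rw [card_eq_zero, filter_eq_empty_iff]
            intro j _ hj
            exact hj.1 hj.2
          rw [h5]
          simp
        · unfold ket
          simp [hx]
      have h5 : nsq (ket z η) = 1 := by
        rw [← hη1]
        unfold nsq ket
        rw [Fintype.sum_prod_type, sum_eq_single z]
        · simp
        · intro x _ hx
          simp [hx]
        · simp
      rw [h4, h5] at h3
      have h6 := mul_le_mul_of_nonneg_left hη2 hb0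
      linarith
    have h3 : E ≤ (1 - b) * (1 + ε) := by
      obtain ⟨v, hv0, hv⟩ := hn.adm.ker
      have h4 := h1 v
      rw [quad_ham, hv, dotProduct_zero] at h4
      have h5 : ∑ x, (1 - b) * (2 ^ k / m * pviol G z x.1) * ‖v x‖ ^ 2 ≤
          (1 - b) * (1 + ε) * nsq v := by
        unfold nsq
        rw [mul_sum]
        refine sum_le_sum fun x _ => mul_le_mul_of_nonneg_right ?_ (sq_nonneg _)
        exact mul_le_mul_of_nonneg_left (split_bounds hm hG x.1).1 (by linarith)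
      have h6 : 0 < nsq v := by
        rw [nsq_eq]
        have : (WithLp.toLp 2 v : Sp n Y) ≠ 0 := by
          intro h
          apply hv0
          have := congrArg WithLp.ofLp h
          simpa using this
        positivity
      simp only [Complex.zero_re, mul_zero, zero_add] at h4
      exact le_of_mul_le_mul_right (h4.trans h5) h6
    constructor
    · by_cases hb : b < 1 / 5
      · have : 0 ≤ κ * b := mul_nonneg hκ.le hb0
        nlinarith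
      · push Not at hb
        have h4 : κ * (1 / 5) ≤ κ * b := mul_le_mul_of_nonneg_left hb hκ.le
        have h5 : (1 - b) * ε ≤ ε := by nlinarith
        nlinarith
    · intro hb
      linarith
  · exact h1

/-- the flattened state near a node of type I -/
theorem typeI_core (hκ : 0 < κ) (hκ1 : κ ≤ 1) (hε0 : 0 ≤ ε) (hε : ε ≤ κ / 40) (hν0 : 0 ≤ ν)
    (hν : ν ≤ 1 / 20) (hm : 0 < m) (hG : Typ ε δ ν G) (hg : (2 : ℝ) ^ (-u * n) < g) (hg1 : g ≤ 1)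
    (hz : GoodZ α κ Λ δ (κ * (2 : ℝ) ^ (-u * n) / 400) G D h T z) {a : Fin p → ℝ} {b E : ℝ}
    {ψ : Cube n × Y → ℂ} (hn : Node α κ Λ g G D h z a b E ψ) (hI : TypeI κ δ g G D h z a b E) :
    1 / 5 ≤ b ∧ ∃ (f : ℝ) (φ χ : Sp n Y) (c : ℂ), ‖φ‖ = 1 ∧
      flatH G δ z (driver G D h z a) b φ = (f : ℂ) • φ ∧
      f ≤ 1 - (1 - κ / 4) * b + κ / 80 ∧ φ = c • (WithLp.toLp 2 ψ : Sp n Y) + χ ∧
      g * ‖χ‖ ≤ 11 / 10 * (κ * (2 : ℝ) ^ (-u * n) / 400) ∧ 99 / 100 ≤ ‖c‖ ∧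
      ‖nearP (hball δ z) φ‖ ≤ κ * (2 : ℝ) ^ (-u * n) / 400 := by
  obtain ⟨τ, hτ⟩ : ∃ τ : ℝ, τ = (2 : ℝ) ^ (-u * n) := ⟨_, rfl⟩
  have hτ0 : 0 < τ := by rw [hτ]; positivity
  rw [← hτ] at hg hz ⊢
  have hg0 : 0 < g := hτ0.trans hg
  obtain ⟨f, φ, hφ, hf, hfE⟩ := hI
  have hE := node_upper hκ hε0 hε hm hG hn
  have hf1 : f ≤ E + κ / 80 := by
    have h1 := (abs_lt.1 hfE).2
    have h2 : κ * g ≤ κ := by nlinarith
    linarith
  have hlow := flat_eig_lower hm hG hν0 hn.adm.psd hn.b0 hn.b1 hφ hf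
  have hb : 1 / 5 ≤ b := by
    by_contra hb
    push Not at hb
    have h1 := hE.2 hb
    have h2 : (4 / 5 : ℝ) * (1 - 1 / 40 - 1 / 20) ≤ (1 - b) * (1 - ε - ν) :=
      mul_le_mul (by linarith) (by linarith) (by norm_num) (by linarith)
    linarith
  have hf2 : f ≤ 1 - (1 - κ / 4) * b + κ / 80 := by linarith [hE.1]
  have hnear := hz.g1 a b f φ hn.adm hb hn.b1 hφ hf hf2
  obtain ⟨hψ1, hψ2, hψ3⟩ := node_hilbert hn
  have hN : ‖nearN G δ z b φ‖ ≤ 82 / 100 * (κ * τ / 400) := by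
    refine (norm_nearN_le hm hG hε0 hn.b1 φ).trans ?_
    have h1 : (1 - b) * (1 + ε) ≤ 82 / 100 := by
      have h2 : (1 - b) * (1 + ε) ≤ 4 / 5 * (1 + 1 / 40) :=
        mul_le_mul (by linarith) (by linarith) (by linarith) (by norm_num)
      linarith
    exact mul_le_mul h1 hnear (norm_nonneg _) (by norm_num)
  obtain ⟨c, χ, h1, h2, h3⟩ := near_eig (ham_symm hn.adm.herm G z b) hg0 hψ1 hψ2 hψ3
    (N := nearN G δ z b) (f := f) (φ := φ) (ν := 82 / 100 * (κ * τ / 400))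
    (by
      have := hf
      unfold flatH at this
      exact this)
    (by
      have : κ * g ≤ g := by nlinarith
      linarith) hN
  have hχ : g * ‖χ‖ ≤ 11 / 10 * (κ * τ / 400) := by
    have : 0 ≤ κ * τ := by positivity
    linarith
  refine ⟨hb, f, φ, χ, c, hφ, hf, hf2, h1, hχ, ?_, hnear⟩
  have h4 := two_pyth h2 c
  rw [← h1, hφ, hψ1] at h4
  have h5 : ‖χ‖ ≤ 1 / 100 := by
    have h6 : κ * τ ≤ g := by nlinarith
    have h7 : g * ‖χ‖ ≤ g * (1 / 100) := by linarith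
    exact le_of_mul_le_mul_left h7 hg0
  have h6 : ‖χ‖ ^ 2 ≤ (1 / 100) ^ 2 := pow_le_pow_left₀ (norm_nonneg _) h5 2
  refine le_of_sq_le_sq ?_ (norm_nonneg _)
  nlinarith

theorem typeI_start (hκ : 0 < κ) (hg : 0 < g) {a : Fin p → ℝ} {E : ℝ} {ψ : Cube n × Y → ℂ}
    (hn : Node α κ Λ g G D h z a 1 E ψ) : TypeI κ δ g G D h z a 1 E := by
  obtain ⟨hψ1, hψ2, -⟩ := node_hilbert hn
  refine ⟨E, WithLp.toLp 2 ψ, hψ1, ?_, ?_⟩
  · unfold flatH
    rw [LinearMap.add_apply, hψ2]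
    have : nearN G δ z 1 (WithLp.toLp 2 ψ : Sp n Y) = 0 := by
      ext x
      unfold nearN
      rw [dg_apply]
      simp
    rw [this, add_zero]
  · rw [sub_self, abs_zero]
    positivity

theorem typeI_out (hκ : 0 < κ) (hκ1 : κ ≤ 1) (hε0 : 0 ≤ ε) (hε : ε ≤ κ / 40) (hν0 : 0 ≤ ν)
    (hν : ν ≤ 1 / 20) (hm : 0 < m) (hG : Typ ε δ ν G) (hg : (2 : ℝ) ^ (-u * n) < g) (hg1 : g ≤ 1)
    (hz : GoodZ α κ Λ δ (κ * (2 : ℝ) ^ (-u * n) / 400) G D h T z) {a : Fin p → ℝ} {b E : ℝ}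
    {ψ : Cube n × Y → ℂ} (hn : Node α κ Λ g G D h z a b E ψ) (hI : TypeI κ δ g G D h z a b E) :
    1 / 5 ≤ b ∧ ‖nearP (hball δ z) (WithLp.toLp 2 ψ : Sp n Y)‖ ≤ (2 : ℝ) ^ (-u * n) / g := by
  obtain ⟨hb, f, φ, χ, c, hφ, hf, hf2, h1, hχ, hc, hnear⟩ :=
    typeI_core hκ hκ1 hε0 hε hν0 hν hm hG hg hg1 hz hn hI
  obtain ⟨τ, hτ⟩ : ∃ τ : ℝ, τ = (2 : ℝ) ^ (-u * n) := ⟨_, rfl⟩
  have hτ0 : 0 < τ := by rw [hτ]; positivity
  rw [← hτ] at hg hχ hnear ⊢
  have hg0 : 0 < g := hτ0.trans hg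
  refine ⟨hb, ?_⟩
  have h2 : c • nearP (hball δ z) (WithLp.toLp 2 ψ : Sp n Y) =
      nearP (hball δ z) φ - nearP (hball δ z) χ := by
    rw [h1, map_add, map_smul]
    abel
  have h3 : ‖c‖ * ‖nearP (hball δ z) (WithLp.toLp 2 ψ : Sp n Y)‖ ≤
      κ * τ / 400 + ‖χ‖ := by
    rw [← norm_smul, h2]
    exact (norm_sub_le _ _).trans (add_le_add hnear (norm_nearP_le _ _))
  rw [le_div_iff₀ hg0]
  have h4 : g * (‖c‖ * ‖nearP (hball δ z) (WithLp.toLp 2 ψ : Sp n Y)‖) ≤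
      g * (κ * τ / 400 + ‖χ‖) := mul_le_mul_of_nonneg_left h3 hg0.le
  have h5 : 99 / 100 * (g * ‖nearP (hball δ z) (WithLp.toLp 2 ψ : Sp n Y)‖) ≤
      ‖c‖ * (g * ‖nearP (hball δ z) (WithLp.toLp 2 ψ : Sp n Y)‖) :=
    mul_le_mul_of_nonneg_right hc (by positivity)
  have h6 : g * (κ * τ / 400) ≤ κ * τ / 400 := by
    have : 0 ≤ κ * τ / 400 := by positivity
    nlinarith
  have h7 : κ * τ ≤ τ := by nlinarith
  nlinarith

theorem typeI_step (hκ : 0 < κ) (hκ1 : κ ≤ 1) (hε0 : 0 ≤ ε) (hε : ε ≤ κ / 40) (hν0 : 0 ≤ ν)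
    (hν : ν ≤ 1 / 20) (hm : 0 < m) (hG : Typ ε δ ν G) (hg : (2 : ℝ) ^ (-u * n) < g) (hg1 : g ≤ 1)
    (hz : GoodZ α κ Λ δ (κ * (2 : ℝ) ^ (-u * n) / 400) G D h T z) (hT : ∀ j, Bdd (T j) 1)
    {a a' : Fin p → ℝ} {b b' E E' : ℝ} {ψ ψ' : Cube n × Y → ℂ}
    (hn : Node α κ Λ g G D h z a b E ψ) (hI : TypeI κ δ g G D h z a b E)
    (hn' : Node α κ Λ g G D h z a' b' E' ψ')
    (ho : (2 : ℝ) ^ (-u * n) / g < ‖star ψ' ⬝ᵥ ψ‖ ∨
      ∃ j, (2 : ℝ) ^ (-u * n) / g < ‖star ψ' ⬝ᵥ T j *ᵥ ψ‖) : TypeI κ δ g G D h z a' b' E' := by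
  obtain ⟨hb, f, φ, χ, c, hφ, hf, hf2, h1, hχ, hc, hnear⟩ :=
    typeI_core hκ hκ1 hε0 hε hν0 hν hm hG hg hg1 hz hn hI
  by_contra hI'
  obtain ⟨τ, hτ⟩ : ∃ τ : ℝ, τ = (2 : ℝ) ^ (-u * n) := ⟨_, rfl⟩
  have hτ0 : 0 < τ := by rw [hτ]; positivity
  rw [← hτ] at hg hχ hnear ho hz
  have hg0 : 0 < g := hτ0.trans hg
  have hd : 0 < κ * g / 80 := by positivity
  have hd1 : κ * g / 80 ≤ 1 := by
    have : κ * g ≤ 1 := mul_le_one₀ hκ1 hg0.le hg1
    linarith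
  have hκτ : κ * τ ≤ τ := by nlinarith
  -- one operator `U` with a large overlap
  obtain ⟨U, hU, hU1, hov⟩ : ∃ U : Sp n Y →ₗ[ℂ] Sp n Y,
      (U = LinearMap.id ∨ ∃ j, U = toEuclideanLin (T j)) ∧ (∀ w, ‖U w‖ ≤ ‖w‖) ∧
      τ / g < ‖inner ℂ (WithLp.toLp 2 ψ' : Sp n Y) (U (WithLp.toLp 2 ψ))‖ := by
    rcases ho with ho | ⟨j, ho⟩
    · refine ⟨LinearMap.id, Or.inl rfl, fun w => le_refl _, ?_⟩
      rw [LinearMap.id_apply, inner_toLp']
      exact ho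
    · refine ⟨toEuclideanLin (T j), Or.inr ⟨j, rfl⟩, fun w => ?_, ?_⟩
      · have := norm_of_bdd zero_le_one (hT j) w
        rwa [one_mul] at this
      · rw [lin_toLp, inner_toLp']
        exact ho
  rcases dichotomy (flatH_symm hn'.adm.herm G δ z b') E' hd with h2 | h2
  · obtain ⟨f', φ', h3, h4, h5⟩ := h2
    exact hI' ⟨f', φ', h3, h4, h5⟩
  · obtain ⟨v, hv1, hv2⟩ := h2 (U φ)
    have hE' := node_upper hκ hε0 hε hm hG hn'
    have hnv := hz.g2 a b f φ hn.adm hb hn.b1 hφ hf hf2 U hU a' b' E' (κ * g / 80) v hn'.adm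
      hn'.b0 hn'.b1 (node_nonneg hm hn') hE'.1 hE'.2 hd hd1
      (hv1.trans ((hU1 φ).trans hφ.le)) hv2
    obtain ⟨hψ1, hψ2, -⟩ := node_hilbert hn'
    have h3 := overlap_far (ham_symm hn'.adm.herm G z b') (nearN_symm G δ z b') hd hψ1 hψ2
      (v := v) (u := U φ) (by
        have := hv2
        unfold flatH at this
        exact this)
    have h4 : ‖nearN G δ z b' v‖ ≤ 41 / 40 * (κ * τ / 400) := by
      refine (norm_nearN_le hm hG hε0 hn'.b1 v).trans ?_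
      have h5 : (1 - b') * (1 + ε) ≤ 41 / 40 := by
        have h6 : (1 - b') * (1 + ε) ≤ 1 * (1 + 1 / 40) :=
          mul_le_mul (by linarith [hn'.b0]) (by linarith) (by linarith) (by norm_num)
        linarith
      exact mul_le_mul h5 hnv (norm_nonneg _) (by norm_num)
    have h5 : g * ‖inner ℂ (WithLp.toLp 2 ψ' : Sp n Y) (U φ)‖ ≤ 21 / 100 * τ := by
      have h6 : κ * (g * ‖inner ℂ (WithLp.toLp 2 ψ' : Sp n Y) (U φ)‖) ≤ κ * (21 / 100 * τ) := by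
        have : 0 ≤ κ * τ := by positivity
        linarith
      exact le_of_mul_le_mul_left h6 hκ
    have h6 : c * inner ℂ (WithLp.toLp 2 ψ' : Sp n Y) (U (WithLp.toLp 2 ψ)) =
        inner ℂ (WithLp.toLp 2 ψ' : Sp n Y) (U φ) -
          inner ℂ (WithLp.toLp 2 ψ' : Sp n Y) (U χ) := by
      rw [h1, map_add, map_smul, inner_add_right, inner_smul_right]
      ring
    have h7 : ‖inner ℂ (WithLp.toLp 2 ψ' : Sp n Y) (U χ)‖ ≤ ‖χ‖ := by
      refine (norm_inner_le_norm _ _).trans ?_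
      rw [hψ1, one_mul]
      exact hU1 χ
    have h8 : ‖c‖ * ‖inner ℂ (WithLp.toLp 2 ψ' : Sp n Y) (U (WithLp.toLp 2 ψ))‖ ≤
        ‖inner ℂ (WithLp.toLp 2 ψ' : Sp n Y) (U φ)‖ + ‖χ‖ := by
      rw [← norm_mul, h6]
      exact (norm_sub_le _ _).trans (add_le_add (le_refl _) h7)
    rw [div_lt_iff₀ hg0] at hov
    have h9 := mul_le_mul_of_nonneg_left h8 hg0.le
    have h10 : 99 / 100 * (‖inner ℂ (WithLp.toLp 2 ψ' : Sp n Y) (U (WithLp.toLp 2 ψ))‖ * g) ≤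
        ‖c‖ * (‖inner ℂ (WithLp.toLp 2 ψ' : Sp n Y) (U (WithLp.toLp 2 ψ))‖ * g) :=
      mul_le_mul_of_nonneg_right hc (by positivity)
    nlinarith

end chainA

end Pool.Agent.H73.AD
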